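import Pool.Agent.Helper68.QC.St4

/-!
# PART M of project QD, module PSH: push-forward of weak derivatives
-/

set_option autoImplicit false

namespace Pool.Agent.Helper67.QCM

open Pool.Agent.Helper68.QC
open MeasureTheory Set Filter Topology Complex
open scoped ContDiff ComplexConjugate ENNReal

private theorem aesm {g : ℂ → ℂ} (hg : L2 univ g) : AEStronglyMeasurable g volume := by
  have h : (⋃ n : ℕ, Metric.closedBall (0 : ℂ) n) = univ := Metric.iUnion_closedBall_nat 0
  rw [← Measure.restrict_univ (μ := (volume : Measure ℂ)), ← h, aestronglyMeasurable_iUnion_iff]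
  intro n
  exact (hg _ (subset_univ _) (isCompact_closedBall _ _)).1

private theorem alg {j x m s A k : ℝ} (hk : k ^ 2 < 1) (hj : 0 < j) (hx : x * j = m) (hx0 : 0 ≤ x)
    (hm : m ≤ s * A) (hA : (1 - k ^ 2) * A ^ 2 ≤ j) :
    j * x ^ 2 ≤ s ^ 2 / (1 - k ^ 2) := by
  have h1 : 0 < 1 - k ^ 2 := by linarith
  have hm0 : 0 ≤ m := by rw [← hx]; positivity
  have h2 : m ^ 2 ≤ (s * A) ^ 2 := pow_le_pow_left₀ hm0 hm 2
  have h3 : j * (j * x ^ 2) ≤ j * (s ^ 2 / (1 - k ^ 2)) := by
    have e : j * (j * x ^ 2) = m ^ 2 := by rw [← hx]; ring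
    rw [e]
    have h4 : s ^ 2 / (1 - k ^ 2) * ((1 - k ^ 2) * A ^ 2) ≤ s ^ 2 / (1 - k ^ 2) * j :=
      mul_le_mul_of_nonneg_left hA (by positivity)
    have h5 : s ^ 2 / (1 - k ^ 2) * ((1 - k ^ 2) * A ^ 2) = (s * A) ^ 2 := by
      field_simp
    nlinarith
  exact le_of_mul_le_mul_left h3 hj

section

variable {k : ℝ} {w : ℂ ≃ₜ ℂ} {a b : ℂ → ℂ}

/-- the density as a measurable function -/
private theorem dens (hw : WD univ w a b) : ∃ Jm : ℂ → NNReal, Measurable Jm ∧
    ∀ᵐ z, Jm z = Real.toNNReal (jc a b z) := by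
  have h1 : AEMeasurable (fun z => Real.toNNReal (jc a b z)) volume := by
    have ha := (aesm hw.l2a).aemeasurable
    have hb := (aesm hw.l2b).aemeasurable
    unfold jc
    exact ((ha.norm.pow_const 2).sub (hb.norm.pow_const 2)).real_toNNReal
  exact ⟨h1.mk _, h1.measurable_mk, h1.ae_eq_mk.symm⟩

private theorem cvm (hCVX : StCVX) (hk0 : 0 ≤ k) (hk1 : k < 1) (hQ : QD k w a b) {Jm : ℂ → NNReal}
    (hJ : ∀ᵐ z, Jm z = Real.toNNReal (jc a b z)) :
    Measure.map w (volume.withDensity (fun z => (Jm z : ℝ≥0∞))) = volume := by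
  have e : (volume : Measure ℂ).withDensity (fun z => (Jm z : ℝ≥0∞)) =
      volume.withDensity (fun z => ENNReal.ofReal (jc a b z)) :=
    withDensity_congr_ae (hJ.mono fun z hz => by
      show (Jm z : ℝ≥0∞) = ENNReal.ofReal (jc a b z)
      rw [hz]; rfl)
  rw [e]
  exact hCVX k w a b hk0 hk1 hQ

private theorem icv (hCVX : StCVX) (hk0 : 0 ≤ k) (hk1 : k < 1) (hQ : QD k w a b)
    (hpos : ∀ᵐ z, 0 < jc a b z) (g : ℂ → ℂ) :
    ∫ ζ, g ζ = ∫ z, g (w z) * (jc a b z : ℂ) := by
  obtain ⟨Jm, hJm, hJ⟩ := dens hQ.wd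
  conv_lhs => rw [← cvm hCVX hk0 hk1 hQ hJ]
  rw [w.measurableEmbedding.integral_map, integral_withDensity_eq_integral_smul hJm]
  refine integral_congr_ae ?_
  filter_upwards [hJ, hpos] with z hz hp
  rw [NNReal.smul_def, hz, Real.coe_toNNReal _ hp.le, real_smul, mul_comm]

private theorem oncv (hCVX : StCVX) (hk0 : 0 ≤ k) (hk1 : k < 1) (hQ : QD k w a b)
    (hpos : ∀ᵐ z, 0 < jc a b z) (g : ℂ → ℝ) {K : Set ℂ} (hK : MeasurableSet K)
    (hg : IntegrableOn (fun z => jc a b z * g (w z)) (w ⁻¹' K)) : IntegrableOn g K := by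
  obtain ⟨Jm, hJm, hJ⟩ := dens hQ.wd
  have hK' : MeasurableSet (w ⁻¹' K) := w.continuous.measurable hK
  rw [← cvm hCVX hk0 hk1 hQ hJ, w.measurableEmbedding.integrableOn_map_iff, IntegrableOn,
    restrict_withDensity hK', integrable_withDensity_iff_integrable_smul hJm]
  refine (integrable_congr ?_).1 hg
  filter_upwards [ae_restrict_of_ae hJ, ae_restrict_of_ae hpos] with z hz hp
  show jc a b z * g (w z) = Jm z • (g ∘ w) z
  rw [NNReal.smul_def, hz, Real.coe_toNNReal _ hp.le]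
  rfl

private theorem l2push (hCVX : StCVX) (hk0 : 0 ≤ k) (hk1 : k < 1) (hQ : QD k w a b)
    (hpos : ∀ᵐ z, 0 < jc a b z) {c d H m : ℂ → ℂ} (hc : L2 univ c) (hd : L2 univ d)
    (hH : Measurable H) (hHm : ∀ᵐ z, H z * (jc a b z : ℂ) = m z)
    (hm : ∀ᵐ z, ‖m z‖ ≤ (‖c z‖ + ‖d z‖) * ‖a z‖) : L2 univ (fun ζ => H (w.symm ζ)) := by
  intro K _ hK
  have hmeas : Measurable (fun ζ => H (w.symm ζ)) := hH.comp w.symm.continuous.measurable
  rw [memLp_two_iff_integrable_sq_norm hmeas.aestronglyMeasurable]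
  have hk2 : k ^ 2 < 1 := by nlinarith
  refine oncv hCVX hk0 hk1 hQ hpos (fun ζ => ‖H (w.symm ζ)‖ ^ 2) hK.measurableSet ?_
  have hKc : IsCompact (w ⁻¹' K) := w.isCompact_preimage.2 hK
  have i1 : IntegrableOn (fun z => ‖c z‖ ^ 2) (w ⁻¹' K) :=
    (memLp_two_iff_integrable_sq_norm (hc _ (subset_univ _) hKc).1).1 (hc _ (subset_univ _) hKc)
  have i2 : IntegrableOn (fun z => ‖d z‖ ^ 2) (w ⁻¹' K) :=
    (memLp_two_iff_integrable_sq_norm (hd _ (subset_univ _) hKc).1).1 (hd _ (subset_univ _) hKc)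
  have i3 : IntegrableOn (fun z => 2 / (1 - k ^ 2) * (‖c z‖ ^ 2 + ‖d z‖ ^ 2)) (w ⁻¹' K) :=
    (i1.add i2).const_mul _
  refine Integrable.mono' i3 ?_ ?_
  · have ha := (aesm hQ.wd.l2a).aemeasurable
    have hb := (aesm hQ.wd.l2b).aemeasurable
    have h1 : AEMeasurable (fun z => jc a b z * ‖H (w.symm (w z))‖ ^ 2) volume := by
      have h2 : Measurable (fun z => ‖H (w.symm (w z))‖ ^ 2) := by
        have : (fun z => ‖H (w.symm (w z))‖ ^ 2) = fun z => ‖H z‖ ^ 2 := by
          funext z; rw [w.symm_apply_apply]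
        rw [this]
        exact hH.norm.pow_const 2
      unfold jc
      exact ((ha.norm.pow_const 2).sub (hb.norm.pow_const 2)).mul h2.aemeasurable
    exact h1.aestronglyMeasurable.restrict
  · filter_upwards [ae_restrict_of_ae hHm, ae_restrict_of_ae hm, ae_restrict_of_ae hpos,
      ae_restrict_of_ae hQ.le] with z h1 h2 h3 h4
    rw [w.symm_apply_apply]
    have h5 : ‖H z‖ * jc a b z = ‖m z‖ := by
      rw [← h1, norm_mul, Complex.norm_real, Real.norm_eq_abs, abs_of_pos h3]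
    have h6 : (1 - k ^ 2) * ‖a z‖ ^ 2 ≤ jc a b z := by
      unfold jc
      have : ‖b z‖ ^ 2 ≤ (k * ‖a z‖) ^ 2 := pow_le_pow_left₀ (norm_nonneg _) h4 2
      nlinarith
    have h7 := alg hk2 h3 h5 (norm_nonneg _) h2 h6
    rw [Real.norm_eq_abs, abs_of_nonneg (mul_nonneg h3.le (by positivity))]
    refine h7.trans ?_
    have h8 : 0 < 1 - k ^ 2 := by linarith
    rw [div_mul_eq_mul_div]
    refine div_le_div_of_nonneg_right ?_ h8.le
    nlinarith [sq_nonneg (‖c z‖ - ‖d z‖)]

end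

theorem pPSH (hCHR : StCHR) (hIBC : StIBC) (hCVX : StCVX) (hNUX : StNUX) : StPSH := by
  intro k w a b f c d hk0 hk1 hQ hQQ hf
  have hpos : ∀ᵐ z, 0 < jc a b z := (hNUX k w hk0 hk1 hQQ).2 a b hQ
  have ma := (aesm hQ.wd.l2a).aemeasurable
  have mb := (aesm hQ.wd.l2b).aemeasurable
  have mc := (aesm hf.l2a).aemeasurable
  have md := (aesm hf.l2b).aemeasurable
  have mJ : AEMeasurable (fun z => (jc a b z : ℂ)) volume := by
    have : AEMeasurable (fun z => jc a b z) volume := by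
      unfold jc
      exact (ma.norm.pow_const 2).sub (mb.norm.pow_const 2)
    exact Complex.measurable_ofReal.comp_aemeasurable this
  have mconj : Measurable (fun z : ℂ => conj z) := Complex.continuous_conj.measurable
  -- the functions
  have m1 : AEMeasurable (fun z => (c z * conj (a z) - d z * conj (b z)) / (jc a b z : ℂ))
      volume :=
    ((mc.mul (mconj.comp_aemeasurable ma)).sub (md.mul (mconj.comp_aemeasurable mb))).div mJ
  have m2 : AEMeasurable (fun z => (a z * d z - b z * c z) / (jc a b z : ℂ)) volume :=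
    ((ma.mul md).sub (mb.mul mc)).div mJ
  set H1 := m1.mk _ with hH1
  set H2 := m2.mk _ with hH2
  have e1 : ∀ᵐ z, H1 z * (jc a b z : ℂ) = c z * conj (a z) - d z * conj (b z) := by
    filter_upwards [m1.ae_eq_mk, hpos] with z hz hp
    rw [hH1, ← hz]
    have : (jc a b z : ℂ) ≠ 0 := by exact_mod_cast hp.ne'
    field_simp
  have e2 : ∀ᵐ z, H2 z * (jc a b z : ℂ) = a z * d z - b z * c z := by
    filter_upwards [m2.ae_eq_mk, hpos] with z hz hp
    rw [hH2, ← hz]
    have : (jc a b z : ℂ) ≠ 0 := by exact_mod_cast hp.ne'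
    field_simp
  have b1 : ∀ᵐ z, ‖c z * conj (a z) - d z * conj (b z)‖ ≤ (‖c z‖ + ‖d z‖) * ‖a z‖ := by
    filter_upwards [hQ.le] with z hz
    have hb : ‖b z‖ ≤ ‖a z‖ := hz.trans (by nlinarith [norm_nonneg (a z)])
    refine (norm_sub_le _ _).trans ?_
    rw [norm_mul, norm_mul, RCLike.norm_conj, RCLike.norm_conj]
    nlinarith [norm_nonneg (d z), norm_nonneg (c z)]
  have b2 : ∀ᵐ z, ‖a z * d z - b z * c z‖ ≤ (‖c z‖ + ‖d z‖) * ‖a z‖ := by
    filter_upwards [hQ.le] with z hz
    have hb : ‖b z‖ ≤ ‖a z‖ := hz.trans (by nlinarith [norm_nonneg (a z)])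
    refine (norm_sub_le _ _).trans ?_
    rw [norm_mul, norm_mul]
    nlinarith [norm_nonneg (d z), norm_nonneg (c z)]
  have s1 : ∀ᵐ z, H1 (w.symm (w z)) * (jc a b z : ℂ) = c z * conj (a z) - d z * conj (b z) := by
    simpa only [w.symm_apply_apply] using e1
  have s2 : ∀ᵐ z, H2 (w.symm (w z)) * (jc a b z : ℂ) = a z * d z - b z * c z := by
    simpa only [w.symm_apply_apply] using e2
  -- the conjugate of `w`
  have hcs : ContDiff ℝ ∞ (fun z : ℂ => conj z) := (Complex.conjCLE : ℂ →L[ℝ] ℂ).contDiff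
  have hdc : ∀ z : ℂ, dz (fun z : ℂ => conj z) z = 0 ∧ dzb (fun z : ℂ => conj z) z = 1 := by
    intro z
    have h1 := dz_conj (f := fun x => x) (z := z) differentiableAt_id
    have h2 := dzb_conj (f := fun x => x) (z := z) differentiableAt_id
    rw [dzb_id] at h1
    rw [dz_id] at h2
    exact ⟨by simpa using h1, by simpa using h2⟩
  have wc : WD univ (fun z => conj (w z)) (fun z => conj (b z)) (fun z => conj (a z)) := by
    have h := hCHR univ univ w a b (fun z => conj z) isOpen_univ isOpen_univ hQ.wd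
      (mapsTo_univ _ _) hcs.contDiffOn
    have g1 : (fun z => dz (fun z : ℂ => conj z) (w z) * a z +
        dzb (fun z : ℂ => conj z) (w z) * conj (b z)) = fun z => conj (b z) := by
      funext z
      rw [(hdc _).1, (hdc _).2]; ring
    have g2 : (fun z => dz (fun z : ℂ => conj z) (w z) * b z +
        dzb (fun z : ℂ => conj z) (w z) * conj (a z)) = fun z => conj (a z) := by
      funext z
      rw [(hdc _).1, (hdc _).2]; ring
    rw [g1, g2] at h
    exact h
  refine ⟨fun ζ => H1 (w.symm ζ), fun ζ => H2 (w.symm ζ),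
    m1.measurable_mk.comp w.symm.continuous.measurable,
    m2.measurable_mk.comp w.symm.continuous.measurable, ?_, s1, s2⟩
  refine ⟨?_, ?_, ?_, ?_, ?_⟩
  · exact (continuousOn_univ.1 hf.cont |>.comp w.symm.continuous).continuousOn
  · exact l2push hCVX hk0 hk1 hQ hpos hf.l2a hf.l2b m1.measurable_mk e1 b1
  · exact l2push hCVX hk0 hk1 hQ hpos hf.l2a hf.l2b m2.measurable_mk e2 b2
  · intro φ hφ
    have hu := hCHR univ univ w a b φ isOpen_univ isOpen_univ hQ.wd (mapsTo_univ _ _)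
      hφ.smooth.contDiffOn
    have hKc : IsCompact (w ⁻¹' (tsupport φ)) := w.isCompact_preimage.2 hφ.cpt
    have h1 := hIBC univ f c d _ _ _ _ _ _ (w ⁻¹' (tsupport φ)) isOpen_univ hf hu wc hKc
      (subset_univ _) (fun z _ hz => image_eq_zero_of_notMem_tsupport hz)
    rw [setIntegral_univ, setIntegral_univ] at h1
    rw [icv hCVX hk0 hk1 hQ hpos, icv hCVX hk0 hk1 hQ hpos (fun ζ => H1 (w.symm ζ) * φ ζ)]
    have h2 : ∫ z, f (w.symm (w z)) * dz φ (w z) * (jc a b z : ℂ) =
        ∫ z, f z * ((dz φ (w z) * a z + dzb φ (w z) * conj (b z)) * conj (a z) -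
          (dz φ (w z) * b z + dzb φ (w z) * conj (a z)) * conj (b z)) := by
      refine integral_congr_ae (ae_of_all _ fun z => ?_)
      show f (w.symm (w z)) * dz φ (w z) * (jc a b z : ℂ) = _
      rw [w.symm_apply_apply]
      have e : (jc a b z : ℂ) = a z * conj (a z) - b z * conj (b z) := by
        unfold jc
        rw [Complex.mul_conj, Complex.mul_conj, Complex.normSq_eq_norm_sq,
          Complex.normSq_eq_norm_sq]
        push_cast; rfl
      rw [e]; ring
    have h3 : ∫ z, H1 (w.symm (w z)) * φ (w z) * (jc a b z : ℂ) =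
        ∫ z, φ (w z) * (c z * conj (a z) - d z * conj (b z)) := by
      refine integral_congr_ae ?_
      filter_upwards [s1] with z hz
      rw [← hz]; ring
    rw [h2, h3]
    exact h1
  · intro φ hφ
    have hu := hCHR univ univ w a b φ isOpen_univ isOpen_univ hQ.wd (mapsTo_univ _ _)
      hφ.smooth.contDiffOn
    have hKc : IsCompact (w ⁻¹' (tsupport φ)) := w.isCompact_preimage.2 hφ.cpt
    have h1 := hIBC univ f c d _ _ _ _ _ _ (w ⁻¹' (tsupport φ)) isOpen_univ hf hu hQ.wd hKc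
      (subset_univ _) (fun z _ hz => image_eq_zero_of_notMem_tsupport hz)
    rw [setIntegral_univ, setIntegral_univ] at h1
    rw [icv hCVX hk0 hk1 hQ hpos, icv hCVX hk0 hk1 hQ hpos (fun ζ => H2 (w.symm ζ) * φ ζ)]
    have h2 : ∫ z, f (w.symm (w z)) * dzb φ (w z) * (jc a b z : ℂ) =
        - ∫ z, f z * ((dz φ (w z) * a z + dzb φ (w z) * conj (b z)) * b z -
          (dz φ (w z) * b z + dzb φ (w z) * conj (a z)) * a z) := by
      rw [← integral_neg]
      refine integral_congr_ae (ae_of_all _ fun z => ?_)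
      show f (w.symm (w z)) * dzb φ (w z) * (jc a b z : ℂ) = _
      rw [w.symm_apply_apply]
      have e : (jc a b z : ℂ) = a z * conj (a z) - b z * conj (b z) := by
        unfold jc
        rw [Complex.mul_conj, Complex.mul_conj, Complex.normSq_eq_norm_sq,
          Complex.normSq_eq_norm_sq]
        push_cast; rfl
      rw [e]; ring
    have h3 : ∫ z, H2 (w.symm (w z)) * φ (w z) * (jc a b z : ℂ) =
        - ∫ z, φ (w z) * (c z * b z - d z * a z) := by
      rw [← integral_neg]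
      refine integral_congr_ae ?_
      filter_upwards [s2] with z hz
      have : c z * b z - d z * a z = - (H2 (w.symm (w z)) * (jc a b z : ℂ)) := by rw [hz]; ring
      rw [this]; ring
    rw [h2, h3, h1]

end Pool.Agent.Helper67.QCM
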